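import Mathlib

set_option autoImplicit false

namespace Pool.Agent.Results.MP_831e37_an.NullSequence

open MeasureTheory Filter Topology

/-- Euclidean space `ℝ^d`. -/
abbrev E (d : ℕ) : Type := EuclideanSpace ℝ (Fin d)

/-- A complex Radon measure on `ℝ^d`, presented as `dens · base`, where `base` is a positive
locally finite Borel measure and `dens` is a complex function which is locally integrable with
respect to `base`. -/
structure CRadon (d : ℕ) where
  /-- the positive measure -/
  base : Measure (E d)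
  /-- it is finite on compact sets -/
  locFin : IsLocallyFiniteMeasure base
  /-- the complex density -/
  dens : E d → ℂ
  /-- the density is locally integrable -/
  locInt : LocallyIntegrable dens base

/-- The total variation measure `|μ|` of `μ = dens · base`. -/
noncomputable def CRadon.tv {d : ℕ} (μ : CRadon d) : Measure (E d) :=
  μ.base.withDensity (fun x => ‖μ.dens x‖ₑ)

/-- The value `μ(f) = ∫ f dμ`. -/
noncomputable def CRadon.integral {d : ℕ} (μ : CRadon d) (f : E d → ℂ) : ℂ :=
  ∫ x, f x * μ.dens x ∂μ.base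

/-- `f ∈ C_c(ℝ^d)`. -/
def IsCc {d : ℕ} (f : E d → ℂ) : Prop := Continuous f ∧ HasCompactSupport f

/-- The convolution `(f * h)(x) = ∫ f(t) h(x - t) dt`. -/
noncomputable def conv {d : ℕ} (f h : E d → ℂ) (x : E d) : ℂ := ∫ t, f t * h (x - t)

/-- `K_2(ℝ^d) = span {f * h : f, h ∈ C_c(ℝ^d)}`. -/
noncomputable def K2 (d : ℕ) : Submodule ℂ (E d → ℂ) :=
  Submodule.span ℂ {g | ∃ f h : E d → ℂ, IsCc f ∧ IsCc h ∧ g = conv f h}

/-- `ǧ(x) = ∫ g(t) exp(2 π i x·t) dt`. -/
noncomputable def check {d : ℕ} (g : E d → ℂ) (x : E d) : ℂ :=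
  ∫ t, g t * Complex.exp (2 * (Real.pi : ℂ) * Complex.I * ((inner ℝ x t : ℝ) : ℂ))

/-- `μ'` is the Fourier transform of `μ`: for every `g ∈ K_2` the function `ǧ` is integrable for
`|μ'|` and `μ(g) = μ'(ǧ)`. -/
def IsFourierTransform {d : ℕ} (μ μ' : CRadon d) : Prop :=
  ∀ g ∈ K2 d, Integrable (check g) μ'.tv ∧ μ.integral g = μ'.integral (check g)

/-! ### Measures attached to polynomials -/

section poly

variable {d : ℕ} (i : Fin d) (δ : ℝ) (R : Polynomial ℂ)

/-- The point `k δ e_i`. -/
noncomputable def pt (k : ℕ) : E d := EuclideanSpace.single i ((k : ℝ) * δ)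

/-- The trigonometric polynomial `R(exp(2 π i δ x_i))`. -/
noncomputable def trig (x : E d) : ℂ :=
  R.eval (Complex.exp (2 * (Real.pi : ℂ) * Complex.I * ((δ * x i : ℝ) : ℂ)))

theorem continuous_trig : Continuous (trig i δ R) := by
  unfold trig
  refine R.continuous.comp (Complex.continuous_exp.comp ?_)
  refine continuous_const.mul (Complex.continuous_ofReal.comp ?_)
  exact continuous_const.mul (by fun_prop)

/-- The absolutely continuous measure with density `R(exp(2 π i δ x_i))`. -/
noncomputable def muOf : CRadon d where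
  base := volume
  locFin := inferInstance
  dens := trig i δ R
  locInt := (continuous_trig i δ R).locallyIntegrable

/-- The density of the discrete measure. -/
noncomputable def ddens (x : E d) : ℂ :=
  ∑ k ∈ Finset.range (R.natDegree + 1), if x = pt i δ k then R.coeff k else 0

/-- The base of the discrete measure. -/
noncomputable def dbase : Measure (E d) :=
  ∑ k ∈ Finset.range (R.natDegree + 1), Measure.dirac (pt i δ k)

theorem integrable_dbase (f : E d → ℂ) : Integrable f (dbase i δ R) := by
  unfold dbase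
  rw [integrable_finsetSum_measure]
  intro k _
  refine ⟨(aemeasurable_dirac).aestronglyMeasurable, ?_⟩
  rw [hasFiniteIntegral_iff_enorm, lintegral_dirac]
  exact enorm_lt_top

instance : IsFiniteMeasure (dbase i δ R) := by
  unfold dbase
  infer_instance

/-- The discrete measure `∑ R_k δ_{k δ e_i}`. -/
noncomputable def hatOf : CRadon d where
  base := dbase i δ R
  locFin := inferInstance
  dens := ddens i δ R
  locInt := (integrable_dbase i δ R _).locallyIntegrable

theorem pt_zero : pt i δ 0 = 0 := by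
  ext j
  unfold pt
  simp

theorem pt_injective (hδ : 0 < δ) : Function.Injective (pt i δ) := by
  intro a b h
  have h1 : (pt i δ a) i = (pt i δ b) i := by rw [h]
  unfold pt at h1
  simp only [PiLp.single_apply, if_true] at h1
  have h2 : (a : ℝ) = b := mul_right_cancel₀ hδ.ne' h1
  exact_mod_cast h2

theorem hatOf_integral (hδ : 0 < δ) (f : E d → ℂ) : (hatOf i δ R).integral f =
    ∑ k ∈ Finset.range (R.natDegree + 1), f (pt i δ k) * R.coeff k := by
  unfold CRadon.integral hatOf
  simp only
  unfold dbase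
  rw [integral_finsetSum_measure]
  · refine Finset.sum_congr rfl (fun k hk => ?_)
    rw [integral_dirac]
    congr 1
    unfold ddens
    rw [Finset.sum_eq_single_of_mem k hk]
    · simp
    · intro b _ hb
      rw [if_neg]
      intro h
      exact hb (pt_injective i δ hδ h).symm
  · intro k hk
    have h1 := integrable_dbase i δ R (fun x => f x * ddens i δ R x)
    unfold dbase at h1
    rw [integrable_finsetSum_measure] at h1
    exact h1 k hk

theorem integral_trig (g : E d → ℂ) (hg : Integrable g) :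
    (muOf i δ R).integral g =
      ∑ k ∈ Finset.range (R.natDegree + 1), check g (pt i δ k) * R.coeff k := by
  unfold CRadon.integral muOf
  simp only
  have h1 : ∀ x : E d, g x * trig i δ R x = ∑ k ∈ Finset.range (R.natDegree + 1),
      (g x * Complex.exp (2 * (Real.pi : ℂ) * Complex.I * ((inner ℝ (pt i δ k) x : ℝ) : ℂ)))
        * R.coeff k := by
    intro x
    unfold trig
    rw [Polynomial.eval_eq_sum_range, Finset.mul_sum]
    refine Finset.sum_congr rfl (fun k _ => ?_)
    rw [← Complex.exp_nat_mul]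
    have h2 : inner ℝ (pt i δ k) x = (k : ℝ) * δ * x i := by
      unfold pt
      rw [EuclideanSpace.inner_single_left]
      simp
    rw [h2]
    have h3 : (k : ℂ) * (2 * (Real.pi : ℂ) * Complex.I * ((δ * x i : ℝ) : ℂ)) =
        2 * (Real.pi : ℂ) * Complex.I * (((k : ℝ) * δ * x i : ℝ) : ℂ) := by
      push_cast; ring
    rw [h3]
    ring
  simp_rw [h1]
  rw [integral_finsetSum]
  · refine Finset.sum_congr rfl (fun k _ => ?_)
    rw [integral_mul_const]
    rfl
  · intro k _
    refine Integrable.mul_const ?_ _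
    refine hg.mul_bdd (c := 1) ?_ ?_
    · refine Continuous.aestronglyMeasurable ?_
      fun_prop
    · refine Eventually.of_forall (fun x => ?_)
      have : 2 * (Real.pi : ℂ) * Complex.I * ((inner ℝ (pt i δ k) x : ℝ) : ℂ) =
          ((2 * Real.pi * inner ℝ (pt i δ k) x : ℝ) : ℂ) * Complex.I := by
        push_cast; ring
      rw [this, Complex.norm_exp_ofReal_mul_I]

theorem integrable_of_mem_K2 (g : E d → ℂ) (hg : g ∈ K2 d) : Integrable g := by
  unfold K2 at hg
  induction hg using Submodule.span_induction with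
  | mem g h =>
    obtain ⟨f, h, hf, hh, rfl⟩ := h
    have h1 : conv f h = MeasureTheory.convolution f h (ContinuousLinearMap.mul ℝ ℂ) volume := by
      funext x
      rfl
    rw [h1]
    exact Integrable.integrable_convolution _ (hf.1.integrable_of_hasCompactSupport hf.2)
      (hh.1.integrable_of_hasCompactSupport hh.2)
  | zero => exact integrable_zero _ _ _
  | add x y _ _ hx hy => exact hx.add hy
  | smul a x _ hx => exact hx.smul a

theorem tv_le (C : ℝ) (hC : ∀ x, ‖ddens i δ R x‖ ≤ C) :
    (hatOf i δ R).tv ≤ ENNReal.ofReal C • dbase i δ R := by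
  unfold CRadon.tv hatOf
  simp only
  rw [← withDensity_const]
  refine withDensity_mono (Eventually.of_forall (fun x => ?_))
  simp only
  rw [← ofReal_norm]
  exact ENNReal.ofReal_le_ofReal (hC x)

theorem isFourierTransform (hδ : 0 < δ) : IsFourierTransform (muOf i δ R) (hatOf i δ R) := by
  intro g hg
  constructor
  · have h1 : ∀ x, ‖ddens i δ R x‖ ≤ ∑ k ∈ Finset.range (R.natDegree + 1), ‖R.coeff k‖ := by
      intro x
      unfold ddens
      refine (norm_sum_le _ _).trans (Finset.sum_le_sum (fun k _ => ?_))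
      split_ifs
      · exact le_rfl
      · simp
    have h2 := tv_le i δ R _ h1
    exact ((integrable_dbase i δ R (check g)).smul_measure ENNReal.ofReal_ne_top).mono_measure h2
  · rw [hatOf_integral i δ R hδ, integral_trig i δ R g (integrable_of_mem_K2 g hg)]

end poly

/-! ### Trigonometric polynomials with large frequencies which are close to a constant -/

theorem exists_poly (n : ℕ) : ∃ (δ : ℝ) (R : Polynomial ℂ), 0 < δ ∧ R.coeff 0 = 1 ∧
    (∀ k : ℕ, 1 ≤ k → (k : ℝ) * δ ≤ n + 1 → R.coeff k = 0) ∧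
    ∀ t : ℝ, |t| ≤ n + 1 →
      ‖R.eval (Complex.exp (2 * (Real.pi : ℂ) * Complex.I * ((δ * t : ℝ) : ℂ)))‖ ≤ 1 / (n + 1) := by
  have hn : (0 : ℝ) < n + 1 := by positivity
  have hpi := Real.pi_pos
  obtain ⟨δ, hδ⟩ : ∃ δ : ℝ, δ = 1 / (4 * Real.pi * (n + 1)) := ⟨_, rfl⟩
  have hδ0 : 0 < δ := by rw [hδ]; positivity
  obtain ⟨N, hN⟩ := exists_nat_gt ((n + 1) / δ)
  have hN1 : (n : ℝ) + 1 < N * δ := by rwa [div_lt_iff₀ hδ0] at hN
  have hNpos : 0 < N := by
    rcases Nat.eq_zero_or_pos N with h | h
    · subst h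
      simp at hN1
      linarith
    · exact h
  have hcont : Continuous (fun w : ℂ => 1 - (1 - w) ^ N) := by fun_prop
  have h0 : (1 : ℂ) - (1 - 0) ^ N = 0 := by simp
  have hpos : (0 : ℝ) < 1 / (n + 1) := by positivity
  obtain ⟨ε, hε, hε2⟩ := Metric.continuous_iff.mp hcont 0 (1 / (n + 1)) hpos
  obtain ⟨m, hm⟩ := exists_pow_lt_of_lt_one hε (by norm_num : (1 / 2 : ℝ) < 1)
  obtain ⟨h, hh⟩ : ∃ h : Polynomial ℂ, h = 1 - (1 - Polynomial.X) ^ m := ⟨_, rfl⟩
  have hdvd : Polynomial.X ∣ h := by
    have h1 := sub_dvd_pow_sub_pow (1 : Polynomial ℂ) (1 - Polynomial.X) m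
    rw [one_pow] at h1
    rw [hh]
    simpa using h1
  have hdvd2 : Polynomial.X ^ N ∣ h ^ N := pow_dvd_pow_of_dvd hdvd N
  rw [Polynomial.X_pow_dvd_iff] at hdvd2
  refine ⟨δ, 1 - h ^ N, hδ0, ?_, ?_, ?_⟩
  · rw [Polynomial.coeff_sub, hdvd2 0 hNpos]
    simp
  · intro k hk hkδ
    have hkN : k < N := by
      have : (k : ℝ) * δ < N * δ := lt_of_le_of_lt hkδ hN1
      have := lt_of_mul_lt_mul_right this hδ0.le
      exact_mod_cast this
    rw [Polynomial.coeff_sub, hdvd2 k hkN, Polynomial.coeff_one, if_neg (by omega)]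
    simp
  · intro t ht
    obtain ⟨z, hz⟩ : ∃ z : ℂ, z = Complex.exp (2 * (Real.pi : ℂ) * Complex.I * ((δ * t : ℝ) : ℂ)) :=
      ⟨_, rfl⟩
    rw [← hz]
    have hz1 : ‖1 - z‖ ≤ 1 / 2 := by
      rw [norm_sub_rev, hz]
      have e1 : 2 * (Real.pi : ℂ) * Complex.I * ((δ * t : ℝ) : ℂ) =
          Complex.I * ((2 * Real.pi * (δ * t) : ℝ) : ℂ) := by push_cast; ring
      rw [e1]
      refine (Real.norm_exp_I_mul_ofReal_sub_one_le).trans ?_
      rw [Real.norm_eq_abs, abs_mul (2 * Real.pi) (δ * t), abs_mul δ t,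
        abs_of_pos (by positivity : (0 : ℝ) < 2 * Real.pi), abs_of_pos hδ0]
      have e2 : 2 * Real.pi * (δ * |t|) ≤ 2 * Real.pi * (δ * (n + 1)) := by gcongr
      refine e2.trans (le_of_eq ?_)
      rw [hδ]
      field_simp
      norm_num
    have hw : ‖(1 - z) ^ m‖ < ε := by
      rw [norm_pow]
      exact lt_of_le_of_lt (pow_le_pow_left₀ (norm_nonneg _) hz1 m) hm
    have h3 := hε2 ((1 - z) ^ m) (by rw [dist_zero_right]; exact hw)
    rw [h0, dist_zero_right] at h3
    have h4 : (1 - h ^ N).eval z = 1 - (1 - (1 - z) ^ m) ^ N := by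
      rw [hh]
      simp
    rw [h4]
    exact h3.le

/-- For every `d ≥ 1` there are Fourier transformable measures `ν_n` on `ℝ^d`, with Fourier
transforms `ν'_n`, and a nonzero measure `μ`, such that `ν_n → 0` and `ν'_n → μ` vaguely. -/
theorem result : ∀ d : ℕ, 1 ≤ d → ∃ (ν ν' : ℕ → CRadon d) (μ : CRadon d),
    (∀ n, IsFourierTransform (ν n) (ν' n)) ∧
    (∃ f : E d → ℂ, IsCc f ∧ μ.integral f ≠ 0) ∧
    (∀ f : E d → ℂ, IsCc f → Tendsto (fun n => (ν n).integral f) atTop (𝓝 0)) ∧
    (∀ f : E d → ℂ, IsCc f → Tendsto (fun n => (ν' n).integral f) atTop (𝓝 (μ.integral f))) := by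
  intro d hd
  obtain ⟨i, -⟩ : ∃ i : Fin d, i = ⟨0, hd⟩ := ⟨_, rfl⟩
  choose δ R hδ hR0 hRk hRt using exists_poly
  have hμ : ∀ f : E d → ℂ, (hatOf i 1 1).integral f = f 0 := by
    intro f
    rw [hatOf_integral i 1 1 one_pos, Polynomial.natDegree_one]
    simp [pt_zero]
  refine ⟨fun n => muOf i (δ n) (R n), fun n => hatOf i (δ n) (R n), hatOf i 1 1,
    fun n => isFourierTransform i (δ n) (R n) (hδ n), ?_, ?_, ?_⟩
  · refine ⟨fun x => ((max 0 (1 - ‖x‖) : ℝ) : ℂ), ⟨by fun_prop, ?_⟩, ?_⟩
    · refine HasCompactSupport.of_support_subset_isCompact (isCompact_closedBall (0 : E d) 1) ?_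
      intro x hx
      rw [mem_closedBall_zero_iff]
      by_contra hlt
      push Not at hlt
      apply hx
      simp only
      rw [max_eq_left (by linarith)]
      simp
    · rw [hμ]
      simp
  · intro f hf
    have hint : Integrable f := hf.1.integrable_of_hasCompactSupport hf.2
    obtain ⟨R0, hR0'⟩ := hf.2.isCompact.isBounded.subset_closedBall (0 : E d)
    have hlim : Tendsto (fun n : ℕ => 1 / ((n : ℝ) + 1) * ∫ x, ‖f x‖) atTop (𝓝 0) := by
      have := (tendsto_one_div_add_atTop_nhds_zero_nat (𝕜 := ℝ)).mul_const (∫ x : E d, ‖f x‖)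
      simpa using this
    refine squeeze_zero_norm' ?_ hlim
    obtain ⟨n0, hn0⟩ := exists_nat_ge R0
    filter_upwards [eventually_ge_atTop n0] with n hn
    unfold CRadon.integral muOf
    simp only
    refine (norm_integral_le_integral_norm _).trans ?_
    rw [← integral_const_mul]
    refine integral_mono_of_nonneg (Eventually.of_forall (fun x => norm_nonneg _))
      (hint.norm.const_mul _) (Eventually.of_forall (fun x => ?_))
    simp only
    by_cases hx : f x = 0
    · rw [hx]; simp
    · have hx1 : x ∈ tsupport f := subset_tsupport f hx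
      have hx2 := hR0' hx1
      rw [mem_closedBall_zero_iff] at hx2
      have hx3 : |x i| ≤ n + 1 := by
        have h1 : ‖x i‖ ≤ ‖x‖ := PiLp.norm_apply_le x i
        rw [Real.norm_eq_abs] at h1
        have h2 : (n0 : ℝ) ≤ n := by exact_mod_cast hn
        linarith
      rw [norm_mul, mul_comm]
      exact mul_le_mul_of_nonneg_right (hRt n (x i) hx3) (norm_nonneg _)
  · intro f hf
    obtain ⟨R0, hR0'⟩ := hf.2.isCompact.isBounded.subset_closedBall (0 : E d)
    obtain ⟨n0, hn0⟩ := exists_nat_ge R0
    refine tendsto_const_nhds.congr' ?_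
    filter_upwards [eventually_ge_atTop n0] with n hn
    rw [hμ, hatOf_integral i (δ n) (R n) (hδ n)]
    rw [Finset.sum_eq_single_of_mem 0 (by simp)]
    · rw [hR0 n, pt_zero, mul_one]
    · intro k _ hk
      by_cases hk2 : (k : ℝ) * δ n ≤ n + 1
      · rw [hRk n k (by omega) hk2, mul_zero]
      · have : f (pt i (δ n) k) = 0 := by
          by_contra hne
          have hx1 : pt i (δ n) k ∈ tsupport f := subset_tsupport f hne
          have hx2 := hR0' hx1
          rw [mem_closedBall_zero_iff] at hx2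
          unfold pt at hx2
          rw [PiLp.norm_single, Real.norm_eq_abs] at hx2
          have h2 : (n0 : ℝ) ≤ n := by exact_mod_cast hn
          have h3 := le_abs_self ((k : ℝ) * δ n)
          push Not at hk2
          linarith
        rw [this, zero_mul]

end Pool.Agent.Results.MP_831e37_an.NullSequence
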